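import Pool.Agent.P8H3.EF.Stm

/-!
# Project EF (helper3), package NUM1 (helper92): the valuations of `p ^ g - 1`
-/

set_option autoImplicit false

namespace Pool.Agent.P8H92.EF

open Finset Pool.Agent.P8H3.EF

lemma prod_pow_fact_dvd (S : Finset ℕ) (hS : ∀ ℓ ∈ S, ℓ.Prime) (g : ℕ) :
    ∏ ℓ ∈ S, ℓ ^ g.factorization ℓ ∣ g := by
  refine Finset.prod_dvd_of_isRelPrime ?_ (fun ℓ _ => Nat.ordProj_dvd g ℓ)
  intro a ha b hb hab
  exact Nat.coprime_iff_isRelPrime.1 (Nat.Coprime.pow _ _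
    ((Nat.coprime_primes (hS a ha) (hS b hb)).2 hab))

lemma val_bound {p g ℓ : ℕ} (hp : p.Prime) (h3 : 3 ≤ p) (hℓ : ℓ.Prime) (hpℓ : ℓ ≠ p) (hg : g ≠ 0)
    (he : Even g) (hd : ℓ - 1 ∣ g) :
    ℓ ^ (p ^ g - 1).factorization ℓ ≤ p ^ ℓ * ℓ ^ g.factorization ℓ := by
  have : Fact ℓ.Prime := ⟨hℓ⟩
  have hnd : ¬ ℓ ∣ p := fun h => hpℓ ((Nat.prime_dvd_prime_iff_eq hℓ hp).1 h)
  rw [Nat.factorization_def _ hℓ, Nat.factorization_def _ hℓ]
  rcases hℓ.eq_two_or_odd' with h2 | hodd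
  · subst h2
    have hlte := padicValNat.pow_two_sub_pow (x := p) (y := 1) (by omega) (by omega) hnd hg he
    rw [one_pow] at hlte
    have h4 : 2 ^ padicValNat 2 (p + 1) ≤ p + 1 :=
      Nat.le_of_dvd (by omega) pow_padicValNat_dvd
    have h5 : 2 ^ padicValNat 2 (p - 1) ≤ p - 1 :=
      Nat.le_of_dvd (by omega) pow_padicValNat_dvd
    have h6 : 2 ^ (padicValNat 2 (p ^ g - 1) + 1) ≤ (p + 1) * (p - 1) * 2 ^ padicValNat 2 g := by
      rw [hlte, pow_add, pow_add]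
      exact Nat.mul_le_mul_right _ (Nat.mul_le_mul h4 h5)
    have h7 : (p + 1) * (p - 1) ≤ p ^ 2 := by
      obtain ⟨q, rfl⟩ : ∃ q, p = q + 1 := ⟨p - 1, by omega⟩
      simp only [Nat.add_sub_cancel]
      nlinarith
    calc 2 ^ padicValNat 2 (p ^ g - 1) ≤ 2 ^ (padicValNat 2 (p ^ g - 1) + 1) :=
          Nat.pow_le_pow_right (by norm_num) (Nat.le_succ _)
      _ ≤ (p + 1) * (p - 1) * 2 ^ padicValNat 2 g := h6
      _ ≤ p ^ 2 * 2 ^ padicValNat 2 g := Nat.mul_le_mul_right _ h7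
  · obtain ⟨c, hc⟩ := hd
    have hl2 := hℓ.two_le
    have hl1 : ℓ - 1 ≠ 0 := by omega
    have hc0 : c ≠ 0 := by rintro rfl; exact hg (by rw [hc, mul_zero])
    have hp1 : 1 < p ^ (ℓ - 1) := Nat.one_lt_pow hl1 hp.one_lt
    have hfer : ℓ ∣ p ^ (ℓ - 1) - 1 := by
      have h1 : p ^ (ℓ - 1) ≡ 1 [MOD ℓ] := by
        have h2 := Nat.ModEq.pow_totient ((Nat.Prime.coprime_iff_not_dvd hℓ).2 hnd).symm
        rwa [Nat.totient_prime hℓ] at h2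
      exact (Nat.modEq_iff_dvd' hp1.le).1 h1.symm
    have hlte := padicValNat.pow_sub_pow (x := p ^ (ℓ - 1)) (y := 1) (p := ℓ) hodd hp1 hfer
      (fun h => hnd (hℓ.dvd_of_dvd_pow h)) hc0
    rw [one_pow, ← pow_mul, ← hc] at hlte
    have h4 : ℓ ^ padicValNat ℓ (p ^ (ℓ - 1) - 1) ≤ p ^ (ℓ - 1) - 1 :=
      Nat.le_of_dvd (by omega) pow_padicValNat_dvd
    have h5 : padicValNat ℓ c ≤ padicValNat ℓ g := by
      rw [hc, padicValNat.mul hl1 hc0]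
      exact Nat.le_add_left _ _
    rw [hlte, pow_add]
    refine Nat.mul_le_mul ?_ (Nat.pow_le_pow_right hℓ.pos h5)
    calc ℓ ^ padicValNat ℓ (p ^ (ℓ - 1) - 1) ≤ p ^ (ℓ - 1) - 1 := h4
      _ ≤ p ^ (ℓ - 1) := Nat.sub_le _ _
      _ ≤ p ^ ℓ := Nat.pow_le_pow_right hp.pos (Nat.sub_le _ _)

/-- **NUM1** -/
theorem num1 : S_NUM1 := by
  intro p N hp h3 hN hpN hpφ
  have hS : ∀ ℓ ∈ N.primeFactors, ℓ.Prime := fun ℓ h => Nat.prime_of_mem_primeFactors h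
  have hcop : p.Coprime (4 * (∏ ℓ ∈ N.primeFactors, ℓ) * ∏ ℓ ∈ N.primeFactors, (ℓ - 1)) := by
    refine Nat.Coprime.mul_right (Nat.Coprime.mul_right ?_ ?_) ?_
    · have h2 : p.Coprime 2 := (Nat.coprime_primes hp Nat.prime_two).2 (by omega)
      exact Nat.Coprime.mul_right (n := 2) (m := 2) h2 h2
    · refine Nat.Coprime.prod_right fun ℓ hℓ => ?_
      refine (Nat.coprime_primes hp (hS ℓ hℓ)).2 ?_
      rintro rfl
      exact hpN (Nat.dvd_of_mem_primeFactors hℓ)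
    · refine Nat.Coprime.prod_right fun ℓ hℓ => ?_
      refine (Nat.Prime.coprime_iff_not_dvd hp).2 fun h => hpφ (h.trans ?_)
      have h1 := Nat.totient_dvd_of_dvd (Nat.dvd_of_mem_primeFactors hℓ)
      rwa [Nat.totient_prime (hS ℓ hℓ)] at h1
  generalize hD : 4 * (∏ ℓ ∈ N.primeFactors, ℓ) * ∏ ℓ ∈ N.primeFactors, (ℓ - 1) = D at hcop
  have hD0 : D ≠ 0 := by
    rintro rfl
    rw [Nat.coprime_zero_right] at hcop
    omega
  have hDp : 0 < D := Nat.pos_of_ne_zero hD0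
  have hg0 : D.totient ≠ 0 := (Nat.totient_pos.2 hDp).ne'
  have h4D : 4 ∣ D := by rw [← hD, mul_assoc]; exact dvd_mul_right _ _
  have hlD : ∀ ℓ ∈ N.primeFactors, ℓ ∣ D := fun ℓ hℓ => by
    rw [← hD]
    exact ((Finset.dvd_prod_of_mem _ hℓ).mul_left 4).mul_right _
  have hlD' : ∀ ℓ ∈ N.primeFactors, ℓ - 1 ∣ D := fun ℓ hℓ => by
    rw [← hD]
    exact (Finset.dvd_prod_of_mem (fun ℓ => ℓ - 1) hℓ).mul_left _
  have hpg : D ∣ p ^ D.totient - 1 :=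
    (Nat.modEq_iff_dvd' (Nat.one_le_pow _ _ hp.pos)).1 (Nat.ModEq.pow_totient hcop).symm
  have heven : Even D.totient := by
    have h1 : (4 : ℕ).totient ∣ D.totient := Nat.totient_dvd_of_dvd h4D
    have h2 : (4 : ℕ).totient = 2 := by decide
    rw [h2] at h1
    exact even_iff_two_dvd.2 h1
  refine ⟨D.totient, Nat.one_le_iff_ne_zero.2 hg0, h4D.trans hpg,
    fun ℓ hℓ => ⟨(hlD ℓ hℓ).trans hpg, (hlD' ℓ hℓ).trans hpg⟩, ?_⟩
  have h1 : ∏ ℓ ∈ N.primeFactors, ℓ ^ (p ^ D.totient - 1).factorization ℓ ≤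
      ∏ ℓ ∈ N.primeFactors, (p ^ ℓ * ℓ ^ D.totient.factorization ℓ) := by
    refine Finset.prod_le_prod' fun ℓ hℓ => val_bound hp h3 (hS ℓ hℓ) ?_ hg0 heven ?_
    · rintro rfl
      exact hpN (Nat.dvd_of_mem_primeFactors hℓ)
    · have h2 := Nat.totient_dvd_of_dvd (hlD ℓ hℓ)
      rwa [Nat.totient_prime (hS ℓ hℓ)] at h2
  refine h1.trans ?_
  rw [Finset.prod_mul_distrib, Finset.prod_pow_eq_pow_sum, mul_comm]
  refine Nat.mul_le_mul_right _ ?_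
  calc ∏ ℓ ∈ N.primeFactors, ℓ ^ D.totient.factorization ℓ ≤ D.totient :=
        Nat.le_of_dvd (Nat.pos_of_ne_zero hg0) (prod_pow_fact_dvd _ hS _)
    _ ≤ D := Nat.totient_le D
    _ ≤ 4 * (∏ ℓ ∈ N.primeFactors, ℓ) ^ 2 := by
        rw [← hD, pow_two, ← mul_assoc]
        exact Nat.mul_le_mul_left _ (Finset.prod_le_prod' fun ℓ _ => Nat.sub_le _ _)

end Pool.Agent.P8H92.EF
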