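import Pool.Agent.P8H3.EF.Stm

/-!
# Project EF (helper3), package NUM2 (helper92): the choice of the large primes
-/

set_option autoImplicit false

namespace Pool.Agent.P8H92.EF

open Finset Pool.Agent.P8H3.EF

lemma N₀_pos (N : ℕ) (L : Finset ℕ) : 0 < N₀ N L := by
  refine Finset.prod_pos fun ℓ hℓ => ?_
  exact pow_pos (Nat.prime_of_mem_primeFactors (Finset.mem_sdiff.1 hℓ).1).pos _

lemma N₀_erase {N : ℕ} {L : Finset ℕ} (hL : L ⊆ N.primeFactors) {ℓ : ℕ} (hℓ : ℓ ∈ L) :
    N₀ N (L.erase ℓ) = ℓ ^ N.factorization ℓ * N₀ N L := by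
  have h1 : N.primeFactors \ L.erase ℓ = insert ℓ (N.primeFactors \ L) := by
    ext x
    simp only [Finset.mem_sdiff, Finset.mem_erase, Finset.mem_insert]
    constructor
    · rintro ⟨h, h'⟩
      by_cases hx : x = ℓ
      · exact Or.inl hx
      · exact Or.inr ⟨h, fun h2 => h' ⟨hx, h2⟩⟩
    · rintro (rfl | ⟨h, h'⟩)
      · exact ⟨hL hℓ, fun h2 => h2.1 rfl⟩
      · exact ⟨h, fun h2 => h' h2.2⟩
  rw [N₀, N₀, h1, Finset.prod_insert]
  exact fun h => (Finset.mem_sdiff.1 h).2 hℓ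

/-- **NUM2** -/
theorem num2 : S_NUM2 := by
  intro N C hN hC hle
  by_contra hcon
  push Not at hcon
  set m := N.primeFactors.sup id with hm
  have key : ∀ j ≤ N.primeFactors.card, ∃ L ⊆ N.primeFactors, L.card + j = N.primeFactors.card ∧
      C * N₀ N L ≤ C ^ ((m + 1) ^ j) ∧ (0 < j → C * N₀ N L < C ^ ((m + 1) ^ j)) := by
    intro j
    induction j with
    | zero =>
      intro _
      refine ⟨N.primeFactors, subset_rfl, rfl, ?_, fun h => absurd h (lt_irrefl 0)⟩
      simp [N₀]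
    | succ j ih =>
      intro hj
      obtain ⟨L, hLS, hcard, hb, -⟩ := ih (by omega)
      have hne : L.Nonempty := Finset.card_pos.1 (by omega)
      obtain ⟨ℓ, hℓ, hlt⟩ := hcon L hne hLS
      have hX : 0 < C * N₀ N L := Nat.mul_pos hC (N₀_pos N L)
      have hℓm : ℓ ≤ m := Finset.le_sup (f := id) (hLS hℓ)
      have hlt2 : C * N₀ N (L.erase ℓ) < C ^ ((m + 1) ^ (j + 1)) := by
        rw [N₀_erase hLS hℓ]
        calc C * (ℓ ^ N.factorization ℓ * N₀ N L) = ℓ ^ N.factorization ℓ * (C * N₀ N L) := by ring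
          _ < (C * N₀ N L) ^ ℓ * (C * N₀ N L) := Nat.mul_lt_mul_of_pos_right hlt hX
          _ = (C * N₀ N L) ^ (ℓ + 1) := (pow_succ _ _).symm
          _ ≤ (C * N₀ N L) ^ (m + 1) := Nat.pow_le_pow_right hX (by omega)
          _ ≤ (C ^ ((m + 1) ^ j)) ^ (m + 1) := Nat.pow_le_pow_left hb _
          _ = C ^ ((m + 1) ^ (j + 1)) := by rw [← pow_mul, ← pow_succ]
      refine ⟨L.erase ℓ, (Finset.erase_subset _ _).trans hLS, ?_, hlt2.le, fun _ => hlt2⟩
      rw [Finset.card_erase_of_mem hℓ]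
      have := Finset.card_pos.2 hne
      omega
  obtain ⟨L, hLS, hcard, -, hlt⟩ := key _ le_rfl
  have hL0 : L = ∅ := Finset.card_eq_zero.1 (by omega)
  have hs : 0 < N.primeFactors.card := Finset.card_pos.2 (Nat.nonempty_primeFactors.2 hN)
  have hlt := hlt hs
  have hNN : N₀ N ∅ = N := by
    rw [N₀, Finset.sdiff_empty]
    exact Nat.prod_factorization_pow_eq_self (by omega)
  rw [hL0, hNN] at hlt
  have h1 : C ^ ((m + 1) ^ N.primeFactors.card) ≤ C * N := by
    have h2 : (m + 1) ^ N.primeFactors.card = (m + 1) ^ N.primeFactors.card - 1 + 1 := by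
      have := Nat.one_le_pow N.primeFactors.card (m + 1) (Nat.succ_pos m)
      omega
    rw [h2, pow_succ, mul_comm]
    exact Nat.mul_le_mul_left _ hle
  exact absurd hlt (not_lt.2 h1)

end Pool.Agent.P8H92.EF
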